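import Pool.Agent.MP_66c699_al.H67.Main

set_option autoImplicit false

namespace Pool.Agent.Results.MP_66c699_al.Torsion

open Pool.Agent.MP_66c699_al.H67

/-- For every group of finite type `G = G_P` given by patterns of depth `D`, the quotient of
`St_G(D-1)` by the closure of its commutator subgroup has finite exponent. -/
theorem result (d D : ℕ) (hd : 2 ≤ d) (hD : 1 ≤ D)
    (P : Subgroup (Equiv.Perm {w : List (Fin d) // w.length ≤ D})) :
    ∃ N : ℕ, 0 < N ∧ ∀ g ∈ levelStab (finType P) (D - 1),
      g ^ N ∈ @closure (autT d) (levelTop d)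
        (⁅levelStab (finType P) (D - 1), levelStab (finType P) (D - 1)⁆ : Subgroup (autT d)) :=
  main hd hD P

end Pool.Agent.Results.MP_66c699_al.Torsion
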